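import Mathlib
import Pool.Agent.LibZM.HB2

set_option autoImplicit false

/-!
# Gabriel's convexity theorem for `p`-th power means along vertical lines, `p ≥ 1`
-/

namespace Pool.Agent.LibGab3

open MeasureTheory Set Filter Topology Complex ProbabilityTheory
open scoped NNReal ComplexConjugate

open Pool.Agent.LibZM

/-- Three lines theorem for pairings with a bounded function. -/
theorem pairing {G : ℂ → ℂ} (hG : Differentiable ℂ G) {a' a b b' C : ℝ} (haa : a' < a) (hab : a < b)
    (hbb : b < b') (hC : ∀ x ∈ Icc a' b', ∀ y : ℝ, ‖G (x + y * I)‖ ≤ C * Real.exp (-|y|)) {x : ℝ}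
    (hx : x ∈ Icc a b) {φ : ℝ → ℂ} (hφm : Measurable φ) {B : ℝ} (hB : 0 ≤ B) (hφn : ∀ y, ‖φ y‖ ≤ B)
    {α β : ℝ} (hα : ∀ w : ℝ, ‖∫ y : ℝ, G (((a:ℝ) : ℂ) + w * I + y * I) * φ y‖ ≤ α)
    (hβ : ∀ w : ℝ, ‖∫ y : ℝ, G (((b:ℝ) : ℂ) + w * I + y * I) * φ y‖ ≤ β) :
    ‖∫ y : ℝ, G (x + y * I) * φ y‖ ≤ α ^ (1 - (x - a) / (b - a)) * β ^ ((x - a) / (b - a)) := by
  have hC0 : 0 ≤ C := by
    have := (norm_nonneg _).trans (hC a' ⟨le_rfl, by linarith⟩ 0)
    simpa using this
  have hz : ∀ z : ℂ, z.re ∈ Icc a' b' → ∀ y : ℝ, ‖G (z + y * I)‖ ≤ (C * Real.exp |z.im|) * Real.exp (-|y|) := by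
    intro z hz y
    have e : z + y * I = ((z.re : ℝ) : ℂ) + ((z.im + y : ℝ) : ℂ) * I := by
      nth_rewrite 1 [← Complex.re_add_im z]; push_cast; ring
    rw [e]
    refine (hC z.re hz (z.im + y)).trans ?_
    rw [mul_assoc, ← Real.exp_add]
    gcongr
    have := abs_sub_abs_le_abs_sub y (-z.im)
    rw [abs_neg, sub_neg_eq_add, add_comm y] at this
    linarith
  have hline : ∀ c : ℂ, Continuous (fun y : ℝ => G (c + y * I)) := fun c => hG.continuous.comp (by fun_prop)
  set Φ : ℂ → ℂ := fun z => ∫ y : ℝ, G (z + y * I) * φ y with hΦ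
  have hmeas : ∀ z : ℂ, AEStronglyMeasurable (fun y : ℝ => G (z + y * I) * φ y) := fun z =>
    ((hline z).measurable.mul hφm).aestronglyMeasurable
  have hint : ∀ z : ℂ, z.re ∈ Icc a' b' → Integrable (fun y : ℝ => G (z + y * I) * φ y) := by
    intro z hz'
    refine Integrable.mono' (integrable_exp_neg_abs.const_mul (C * Real.exp |z.im| * B)) (hmeas z) (Eventually.of_forall fun y => ?_)
    rw [norm_mul]
    calc ‖G (z + y * I)‖ * ‖φ y‖ ≤ ((C * Real.exp |z.im|) * Real.exp (-|y|)) * B :=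
          mul_le_mul (hz z hz' y) (hφn y) (norm_nonneg _) (by positivity)
      _ = _ := by ring
  have hdiff : ∀ z0 : ℂ, a' < z0.re → z0.re < b' → DifferentiableAt ℂ Φ z0 := by
    intro z0 h1 h2
    set ρ := min (z0.re - a') (b' - z0.re) / 2 with hρ
    have hρ0 : 0 < ρ := by
      have : 0 < min (z0.re - a') (b' - z0.re) := lt_min (by linarith) (by linarith)
      positivity
    have hρ1 : 2 * ρ ≤ z0.re - a' := by rw [hρ]; linarith [min_le_left (z0.re - a') (b' - z0.re)]
    have hρ2 : 2 * ρ ≤ b' - z0.re := by rw [hρ]; linarith [min_le_right (z0.re - a') (b' - z0.re)]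
    have hball : ∀ z ∈ Metric.closedBall z0 (2 * ρ), z.re ∈ Icc a' b' ∧ |z.im| ≤ |z0.im| + 2 * ρ := by
      intro z hz
      rw [Metric.mem_closedBall, Complex.dist_eq] at hz
      have h3 := (Complex.abs_re_le_norm (z - z0)).trans hz
      have h4 := (Complex.abs_im_le_norm (z - z0)).trans hz
      rw [Complex.sub_re] at h3
      rw [Complex.sub_im] at h4
      rw [abs_le] at h3
      refine ⟨⟨by linarith [h3.1], by linarith [h3.2]⟩, ?_⟩
      have := abs_sub_abs_le_abs_sub z.im z0.im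
      linarith
    have hder : ∀ z ∈ Metric.ball z0 ρ, ∀ y : ℝ, ‖deriv G (z + y * I)‖ ≤ ((C * Real.exp (|z0.im| + 2 * ρ)) * Real.exp (-|y|)) / ρ := by
      intro z hzb y
      apply Complex.norm_deriv_le_of_forall_mem_sphere_norm_le hρ0 hG.diffContOnCl
      intro w hw
      have hw' : w - y * I ∈ Metric.closedBall z0 (2 * ρ) := by
        rw [Metric.mem_sphere, Complex.dist_eq] at hw
        rw [Metric.mem_ball, Complex.dist_eq] at hzb
        rw [Metric.mem_closedBall, Complex.dist_eq]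
        have : w - y * I - z0 = (w - (z + y * I)) + (z - z0) := by ring
        rw [this]
        refine (norm_add_le _ _).trans ?_
        linarith
      obtain ⟨h3, h4⟩ := hball _ hw'
      have h5 := hz _ h3 y
      have e : w - y * I + y * I = w := by ring
      rw [e] at h5
      refine h5.trans ?_
      gcongr
    have key := hasDerivAt_integral_of_dominated_loc_of_deriv_le (μ := volume) (F := fun (z : ℂ) (y : ℝ) => G (z + y * I) * φ y)
      (F' := fun (z : ℂ) (y : ℝ) => deriv G (z + y * I) * φ y) (x₀ := z0) (s := Metric.ball z0 ρ)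
      (bound := fun y => (((C * Real.exp (|z0.im| + 2 * ρ)) * Real.exp (-|y|)) / ρ) * B)
      (Metric.ball_mem_nhds z0 hρ0) (Eventually.of_forall fun z => hmeas z)
      (hint z0 ⟨h1.le, h2.le⟩) (by
        have hdc : Continuous (deriv G) := (hG.contDiff (n := 1)).continuous_deriv le_rfl
        have : Continuous (fun y : ℝ => deriv G (z0 + y * I)) := hdc.comp (by fun_prop)
        exact (this.measurable.mul hφm).aestronglyMeasurable)
      (Eventually.of_forall fun y z hzb => by
        rw [norm_mul]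
        exact mul_le_mul (hder z hzb y) (hφn y) (norm_nonneg _) (by positivity))
      (((integrable_exp_neg_abs.const_mul _).div_const _).mul_const _)
      (Eventually.of_forall fun y z _ => by
        have h3 : HasDerivAt G (deriv G (z + y * I)) (z + y * I) := (hG _).hasDerivAt
        have h4 : HasDerivAt (fun z : ℂ => z + y * I) 1 z := (hasDerivAt_id z).add_const _
        have h5 := h3.comp z h4
        rw [mul_one] at h5
        exact h5.mul_const (φ y))
    exact key.2.differentiableAt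
  have hx' : (x:ℂ) ∈ HadamardThreeLines.verticalClosedStrip a b := by
    rw [HadamardThreeLines.verticalClosedStrip, mem_preimage]; simpa using hx
  have hmain := HadamardThreeLines.norm_le_interp_of_mem_verticalClosedStrip' (f := Φ) (z := (x:ℂ))
    (a := α) (b := β) hab hx' (by
      apply DifferentiableOn.diffContOnCl
      intro z hz'
      have hcl : closure (HadamardThreeLines.verticalStrip a b) ⊆ re ⁻¹' Icc a b := by
        apply closure_minimal
        · intro w hw; exact Ioo_subset_Icc_self hw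
        · exact isClosed_Icc.preimage Complex.continuous_re
      have := hcl hz'
      rw [mem_preimage, mem_Icc] at this
      exact (hdiff z (by linarith [this.1]) (by linarith [this.2])).differentiableWithinAt) (by
      refine ⟨C * (∫ y : ℝ, Real.exp (-|y|)) * B, ?_⟩
      rintro _ ⟨z, hz', rfl⟩
      rw [HadamardThreeLines.verticalClosedStrip, mem_preimage, mem_Icc] at hz'
      have h1 : z.re ∈ Icc a' b' := ⟨by linarith [hz'.1], by linarith [hz'.2]⟩
      show ‖Φ z‖ ≤ _
      have e : ∀ y : ℝ, z + y * I = ((z.re : ℝ) : ℂ) + ((z.im + y : ℝ) : ℂ) * I := by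
        intro y
        nth_rewrite 1 [← Complex.re_add_im z]; push_cast; ring
      have hdom : Integrable (fun y : ℝ => C * Real.exp (-|z.im + y|) * B) := by
        have h3 : Integrable (fun y : ℝ => Real.exp (-|z.im + y|)) :=
          integrable_exp_neg_abs.comp_add_left z.im
        exact (h3.const_mul C).mul_const B
      have h2 : ‖Φ z‖ ≤ ∫ y : ℝ, C * Real.exp (-|z.im + y|) * B := by
        refine norm_integral_le_of_norm_le hdom (Eventually.of_forall fun y => ?_)
        rw [norm_mul, e y]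
        exact mul_le_mul (hC z.re h1 (z.im + y)) (hφn y) (norm_nonneg _) (by positivity)
      refine h2.trans (le_of_eq ?_)
      rw [integral_mul_const, integral_const_mul,
        integral_add_left_eq_self (fun y : ℝ => Real.exp (-|y|)) z.im]) (by
      intro z hz'
      rw [mem_preimage, mem_singleton_iff] at hz'
      have := hα z.im
      rw [← hz', Complex.re_add_im] at this
      exact this) (by
      intro z hz'
      rw [mem_preimage, mem_singleton_iff] at hz'
      have := hβ z.im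
      rw [← hz', Complex.re_add_im] at this
      exact this)
  simp only [Complex.ofReal_re] at hmain
  exact hmain

/-- Gabriel's convexity theorem for `p`-th power means. -/
theorem gabriel_p {p : ℝ} (hp : 1 ≤ p) {G : ℂ → ℂ} (hG : Differentiable ℂ G) {a' a b b' C : ℝ} (haa : a' < a)
    (hab : a < b) (hbb : b < b')
    (hC : ∀ x ∈ Icc a' b', ∀ y : ℝ, ‖G (x + y * I)‖ ≤ C * Real.exp (-|y|)) {x : ℝ} (hx : x ∈ Icc a b) :
    ∫ y : ℝ, ‖G (x + y * I)‖ ^ p ≤
      (∫ y : ℝ, ‖G (a + y * I)‖ ^ p) ^ (1 - (x - a) / (b - a)) *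
        (∫ y : ℝ, ‖G (b + y * I)‖ ^ p) ^ ((x - a) / (b - a)) := by
  rcases eq_or_lt_of_le hp with h1 | hp1
  · rw [← h1]
    simp only [Real.rpow_one]
    exact gabriel hG haa hab hbb hC hx
  have hp0 : 0 < p := by linarith
  have hC0 : 0 ≤ C := by
    have := (norm_nonneg _).trans (hC a' ⟨le_rfl, by linarith⟩ 0)
    simpa using this
  have hline : ∀ c : ℂ, Continuous (fun y : ℝ => G (c + y * I)) := fun c => hG.continuous.comp (by fun_prop)
  obtain ⟨q, hpq⟩ : ∃ q : ℝ, p.HolderConjugate q := ⟨_, Real.HolderConjugate.conjExponent hp1⟩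
  have hq0 : 0 < q := hpq.symm.pos
  have hqp : (p - 1) * q = p := by
    have := hpq.sub_one_mul_conj
    rw [this]
  -- powers
  have hIexp : ∀ r : ℝ, 0 < r → ∀ z : ℂ, z.re ∈ Icc a' b' → Integrable (fun y : ℝ => ‖G (z + y * I)‖ ^ r) := by
    intro r hr z hz'
    have h3 : Integrable (fun y : ℝ => (C * Real.exp |z.im|) ^ r * Real.exp (-|r * y|)) :=
      (integrable_exp_neg_abs.comp_mul_left' hr.ne').const_mul _
    refine Integrable.mono' h3 ((hline z).norm.measurable.pow_const r).aestronglyMeasurable (Eventually.of_forall fun y => ?_)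
    rw [Real.norm_eq_abs, abs_of_nonneg (by positivity)]
    have e : z + y * I = ((z.re : ℝ) : ℂ) + ((z.im + y : ℝ) : ℂ) * I := by
      nth_rewrite 1 [← Complex.re_add_im z]; push_cast; ring
    have h4 : ‖G (z + y * I)‖ ≤ (C * Real.exp |z.im|) * Real.exp (-|y|) := by
      rw [e]
      refine (hC z.re hz' (z.im + y)).trans ?_
      rw [mul_assoc, ← Real.exp_add]
      gcongr
      have := abs_sub_abs_le_abs_sub y (-z.im)
      rw [abs_neg, sub_neg_eq_add, add_comm y] at this
      linarith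
    calc ‖G (z + y * I)‖ ^ r ≤ ((C * Real.exp |z.im|) * Real.exp (-|y|)) ^ r :=
          Real.rpow_le_rpow (norm_nonneg _) h4 hr.le
      _ = (C * Real.exp |z.im|) ^ r * Real.exp (-|r * y|) := by
          rw [Real.mul_rpow (by positivity) (by positivity), ← Real.exp_mul, abs_mul, abs_of_pos hr]
          congr 2; ring
  have hxs : x ∈ Icc a' b' := ⟨by linarith [hx.1], by linarith [hx.2]⟩
  set N := ∫ y : ℝ, ‖G (x + y * I)‖ ^ p with hN
  set A := ∫ y : ℝ, ‖G (a + y * I)‖ ^ p with hA
  set D := ∫ y : ℝ, ‖G (b + y * I)‖ ^ p with hD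
  have hN0 : 0 ≤ N := integral_nonneg fun y => by positivity
  have hA0 : 0 ≤ A := integral_nonneg fun y => by positivity
  have hD0 : 0 ≤ D := integral_nonneg fun y => by positivity
  set φ : ℝ → ℂ := fun y => conj (G (x + y * I)) / (‖G (x + y * I)‖ : ℂ) * ((‖G (x + y * I)‖ ^ (p - 1) : ℝ) : ℂ) with hφ
  have hφm : Measurable φ := by
    have h1 : Measurable (fun y : ℝ => G (x + y * I)) := (hline x).measurable
    have h2 : Measurable (fun y : ℝ => conj (G (x + y * I))) := (Complex.continuous_conj.comp (hline x)).measurable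
    have h3 : Measurable (fun y : ℝ => ((‖G (x + y * I)‖ : ℝ) : ℂ)) := (Complex.continuous_ofReal.comp (hline x).norm).measurable
    have h4 : Measurable (fun y : ℝ => ((‖G (x + y * I)‖ ^ (p - 1) : ℝ) : ℂ)) :=
      Complex.measurable_ofReal.comp ((hline x).norm.measurable.pow_const (p - 1))
    exact (h2.div h3).mul h4
  have hφ1 : ∀ y, ‖φ y‖ ≤ ‖G (x + y * I)‖ ^ (p - 1) := by
    intro y
    simp only [hφ]
    rw [norm_mul, norm_div, RCLike.norm_conj, Complex.norm_real, Complex.norm_real, norm_norm,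
      Real.norm_of_nonneg (by positivity : 0 ≤ ‖G (x + y * I)‖ ^ (p - 1))]
    exact mul_le_of_le_one_left (by positivity) (div_self_le_one _)
  have hφn : ∀ y, ‖φ y‖ ≤ C ^ (p - 1) := by
    intro y
    refine (hφ1 y).trans (Real.rpow_le_rpow (norm_nonneg _) ?_ (by linarith))
    refine (hC x hxs y).trans ?_
    exact mul_le_of_le_one_right hC0 (Real.exp_le_one_iff.mpr (by have := abs_nonneg y; linarith))
  -- Holder
  have hHold : ∀ c : ℝ, c ∈ Icc a' b' → ∀ w : ℝ, ‖∫ y : ℝ, G (((c:ℝ) : ℂ) + w * I + y * I) * φ y‖ ≤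
      (∫ y : ℝ, ‖G (c + y * I)‖ ^ p) ^ (1 / p) * N ^ (1 / q) := by
    intro c hc w
    have hre : (((c:ℝ) : ℂ) + w * I).re ∈ Icc a' b' := by simpa using hc
    have hI1 := hIexp p hp0 (((c:ℝ) : ℂ) + w * I) hre
    have hI2 : Integrable (fun y : ℝ => (‖G (x + y * I)‖ ^ (p - 1)) ^ q) := by
      have h3 := hIexp p hp0 ((x:ℝ) : ℂ) (by simpa using hxs)
      refine h3.congr (Eventually.of_forall fun y => ?_)
      show ‖G (x + y * I)‖ ^ p = (‖G (x + y * I)‖ ^ (p - 1)) ^ q
      rw [← Real.rpow_mul (norm_nonneg _), hqp]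
    have hm1 : AEStronglyMeasurable (fun y : ℝ => ‖G (((c:ℝ) : ℂ) + w * I + y * I)‖) :=
      (hline _).norm.aestronglyMeasurable
    have hm2 : AEStronglyMeasurable (fun y : ℝ => ‖G (x + y * I)‖ ^ (p - 1)) :=
      ((hline x).norm.measurable.pow_const (p - 1)).aestronglyMeasurable
    have hL1 : MemLp (fun y : ℝ => ‖G (((c:ℝ) : ℂ) + w * I + y * I)‖) (ENNReal.ofReal p) := by
      rw [← integrable_norm_rpow_iff hm1 (by simpa using hp0) ENNReal.ofReal_ne_top,
        ENNReal.toReal_ofReal hp0.le]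
      simpa using hI1
    have hL2 : MemLp (fun y : ℝ => ‖G (x + y * I)‖ ^ (p - 1)) (ENNReal.ofReal q) := by
      rw [← integrable_norm_rpow_iff hm2 (by simpa using hq0) ENNReal.ofReal_ne_top,
        ENNReal.toReal_ofReal hq0.le]
      refine hI2.congr (Eventually.of_forall fun y => ?_)
      show _ = ‖‖G (x + y * I)‖ ^ (p - 1)‖ ^ q
      rw [Real.norm_of_nonneg (by positivity : 0 ≤ ‖G (x + y * I)‖ ^ (p - 1))]
    have hmul := integral_mul_le_Lp_mul_Lq_of_nonneg (μ := volume) hpq
      (Eventually.of_forall fun y : ℝ => norm_nonneg (G (((c:ℝ) : ℂ) + w * I + y * I)))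
      (Eventually.of_forall fun y : ℝ => (by positivity : 0 ≤ ‖G (x + y * I)‖ ^ (p - 1))) hL1 hL2
    have hI3 : Integrable (fun y : ℝ => ‖G (((c:ℝ) : ℂ) + w * I + y * I)‖ * ‖G (x + y * I)‖ ^ (p - 1)) :=
      haveI := hpq.ennrealOfReal
      hL1.integrable_mul hL2
    have h5 : ‖∫ y : ℝ, G (((c:ℝ) : ℂ) + w * I + y * I) * φ y‖ ≤
        ∫ y : ℝ, ‖G (((c:ℝ) : ℂ) + w * I + y * I)‖ * ‖G (x + y * I)‖ ^ (p - 1) := by
      refine norm_integral_le_of_norm_le hI3 (Eventually.of_forall fun y => ?_)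
      rw [norm_mul]
      exact mul_le_mul_of_nonneg_left (hφ1 y) (norm_nonneg _)
    refine h5.trans (hmul.trans (le_of_eq ?_))
    congr 2
    · rw [← integral_add_left_eq_self (fun y : ℝ => ‖G ((c : ℂ) + y * I)‖ ^ p) w]
      congr 1; ext y
      congr 3
      push_cast; ring
    · rw [hN]
      congr 1; ext y
      rw [← Real.rpow_mul (norm_nonneg _), hqp]
  have hmain := pairing hG haa hab hbb hC hx hφm (by positivity : 0 ≤ C ^ (p - 1)) hφn
    (hHold a ⟨haa.le, by linarith⟩) (hHold b ⟨by linarith, hbb.le⟩)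
  have hval : ∫ y : ℝ, G (x + y * I) * φ y = ((N : ℝ) : ℂ) := by
    rw [hN, ← integral_complex_ofReal]
    congr 1; ext y
    simp only [hφ]
    rcases eq_or_ne (G (x + y * I)) 0 with h0 | h0
    · rw [h0]; simp [Real.zero_rpow hp0.ne']
    · have h1 : ((‖G (x + y * I)‖ : ℝ) : ℂ) ≠ 0 := by
        rw [Ne, Complex.ofReal_eq_zero, norm_eq_zero]; exact h0
      have h2 : (0:ℝ) < ‖G (x + y * I)‖ := norm_pos_iff.mpr h0
      have h3 : ‖G (x + y * I)‖ ^ p = ‖G (x + y * I)‖ ^ (p - 1) * ‖G (x + y * I)‖ := by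
        nth_rewrite 3 [← Real.rpow_one ‖G (x + y * I)‖]
        rw [← Real.rpow_add h2]; congr 1; ring
      rw [h3, ← mul_assoc, mul_div_assoc', Complex.mul_conj, Complex.normSq_eq_norm_sq]
      push_cast
      field_simp
  rw [hval, Complex.norm_real, Real.norm_of_nonneg hN0] at hmain
  set τ := (x - a) / (b - a) with hτ
  have hba : 0 < b - a := by linarith
  have hτ0 : 0 ≤ τ := div_nonneg (by linarith [hx.1]) hba.le
  have hτ1 : τ ≤ 1 := by rw [hτ, div_le_one hba]; linarith [hx.2]
  rcases eq_or_lt_of_le hN0 with h0 | hNpos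
  · rw [← h0]; positivity
  have h6 : (A ^ (1 / p) * N ^ (1 / q)) ^ (1 - τ) * (D ^ (1 / p) * N ^ (1 / q)) ^ τ =
      (A ^ (1 - τ) * D ^ τ) ^ (1 / p) * N ^ (1 / q) := by
    rw [Real.mul_rpow (by positivity) (by positivity), Real.mul_rpow (by positivity) (by positivity),
      Real.mul_rpow (by positivity) (by positivity), ← Real.rpow_mul hA0, ← Real.rpow_mul hD0,
      ← Real.rpow_mul hA0, ← Real.rpow_mul hD0, ← Real.rpow_mul hN0, ← Real.rpow_mul hN0]
    have h7 : N ^ (1 / q * (1 - τ)) * N ^ (1 / q * τ) = N ^ (1 / q) := by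
      rw [← Real.rpow_add hNpos]; congr 1; ring
    rw [mul_comm (1 / p) (1 - τ), mul_comm (1 / p) τ]
    calc A ^ ((1 - τ) * (1 / p)) * N ^ (1 / q * (1 - τ)) * (D ^ (τ * (1 / p)) * N ^ (1 / q * τ)) =
        A ^ ((1 - τ) * (1 / p)) * D ^ (τ * (1 / p)) * (N ^ (1 / q * (1 - τ)) * N ^ (1 / q * τ)) := by ring
      _ = _ := by rw [h7]
  rw [h6] at hmain
  have h8 : N = N ^ (1 / p) * N ^ (1 / q) := by
    rw [← Real.rpow_add hNpos]
    have : 1 / p + 1 / q = 1 := by
      have := hpq.inv_add_inv_eq_one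
      rw [one_div, one_div]; exact this
    rw [this, Real.rpow_one]
  have h9 : N ^ (1 / p) ≤ (A ^ (1 - τ) * D ^ τ) ^ (1 / p) := by
    have h10 : 0 < N ^ (1 / q) := by positivity
    nth_rewrite 1 [h8] at hmain
    exact le_of_mul_le_mul_right hmain h10
  exact (Real.rpow_le_rpow_iff hN0 (by positivity) (by positivity : 0 < 1 / p)).mp h9

end Pool.Agent.LibGab3
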