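import Mathlib
import Pool.Agent.LibGab3.GabrielP

set_option autoImplicit false

/-!
# Convexity of Gaussian `p`-th power means along vertical lines
-/

namespace Pool.Agent.LibGab3

open MeasureTheory Set Filter Topology Complex ProbabilityTheory
open scoped NNReal ComplexConjugate

open Pool.Agent.LibZM

/-- Gaussian mean of `|F|^p` on the vertical line with abscissa `x`. -/
noncomputable def Ep (p : ℝ) (F : ℂ → ℂ) (u : ℝ) (v : ℝ≥0) (x : ℝ) : ℝ :=
  ∫ t : ℝ, ‖F (x + t * I)‖ ^ p ∂(gaussianReal u v)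

lemma Ep_nonneg (p : ℝ) (F : ℂ → ℂ) (u : ℝ) (v : ℝ≥0) (x : ℝ) : 0 ≤ Ep p F u v x :=
  integral_nonneg fun _ => by positivity

lemma Ep_eq {p : ℝ} (hp : 0 < p) (F : ℂ → ℂ) {u : ℝ} {v : ℝ≥0} (hv : 0 < v) (x : ℝ) :
    ∫ y : ℝ, ‖F (x + y * I) * KK u (v * p) (x + y * I)‖ ^ p =
      Real.exp ((x - 1/2) ^ 2 / (2 * v)) * (√(2 * Real.pi * v) * Ep p F u v x) := by
  have hv' : (0:ℝ) < v := by exact_mod_cast hv
  have h := KK_bound_gauss (u := u) hv.ne' (fun y : ℝ => ‖F (x + y * I)‖ ^ p)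
  have hc : √(2 * Real.pi * v) ≠ 0 := by positivity
  unfold Ep
  rw [← h, ← mul_assoc (√(2 * Real.pi * v)), mul_inv_cancel₀ hc, one_mul, ← integral_const_mul]
  congr 1; ext y
  rw [norm_mul, norm_KK, Real.mul_rpow (norm_nonneg _) (Real.exp_pos _).le, ← Real.exp_mul]
  have e : ((x - 1/2) ^ 2 - (y - u) ^ 2) / (2 * (v * p)) * p =
      (x - 1/2) ^ 2 / (2 * v) + -(y - u) ^ 2 / (2 * v) := by
    field_simp; ring
  rw [e, Real.exp_add]; ring

/-- Convexity of Gaussian `p`-th power means. -/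
theorem convex_Ep {p : ℝ} (hp : 1 ≤ p) {F : ℂ → ℂ} (hF : Differentiable ℂ F) {a' a b b' C : ℝ} (haa : a' < a)
    (hab : a < b) (hbb : b < b')
    (hC0 : 0 ≤ C) (hC : ∀ x ∈ Icc a' b', ∀ y : ℝ, ‖F (x + y * I)‖ ≤ C * Real.exp |y|) {u : ℝ} {v : ℝ≥0}
    (hv : 0 < v) {x M : ℝ} (hx : x ∈ Icc a b) (hMa : (a - 1/2) ^ 2 ≤ M) (hMb : (b - 1/2) ^ 2 ≤ M) :
    Ep p F u v x ≤ Real.exp (M / (2 * v)) *
      (Ep p F u v a ^ (1 - (x - a) / (b - a)) * Ep p F u v b ^ ((x - a) / (b - a))) := by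
  have hv' : (0:ℝ) < v := by exact_mod_cast hv
  have hp0 : 0 < p := by linarith
  obtain ⟨V, hV⟩ : ∃ V : ℝ, V = v * p := ⟨_, rfl⟩
  have hV0 : 0 < V := by rw [hV]; positivity
  obtain ⟨Bd, hBd⟩ : ∃ Bd : ℝ, Bd = ((a' - 1/2) ^ 2 + (b' - 1/2) ^ 2) / (2 * V) := ⟨_, rfl⟩
  have hgrow : ∀ x ∈ Icc a' b', ∀ y : ℝ, ‖F (x + y * I) * KK u V (x + y * I)‖ ≤ (C * Real.exp (Bd + 2 * |u| + 2 * V)) * Real.exp (-|y|) := by
    intro x hx y
    rw [norm_mul, norm_KK]
    have h1 : ((x - 1/2) ^ 2 - (y - u) ^ 2) / (2 * V) ≤ Bd - (y - u) ^ 2 / (2 * V) := by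
      rw [hBd, ← sub_div]
      gcongr
      have : (x - 1/2) ^ 2 ≤ (a' - 1/2) ^ 2 + (b' - 1/2) ^ 2 := by
        rcases le_total x (1/2) with h | h
        · have := hx.1; nlinarith [sq_nonneg (b' - 1/2)]
        · have := hx.2; nlinarith [sq_nonneg (a' - 1/2)]
      linarith
    have h2 : 2 * |y| ≤ 2 * |u| + 2 * V + (y - u) ^ 2 / (2 * V) := by
      have h3 : |y| ≤ |u| + |y - u| := by
        have := abs_add_le u (y - u)
        rwa [add_sub_cancel] at this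
      have h4 : 2 * |y - u| ≤ 2 * V + (y - u) ^ 2 / (2 * V) := by
        rw [← sq_abs (y - u)]
        have : 0 ≤ (|y - u| - 2 * V) ^ 2 / (2 * V) := by positivity
        have e : (|y - u| - 2 * V) ^ 2 / (2 * V) = |y - u| ^ 2 / (2 * V) - 2 * |y - u| + 2 * V := by
          field_simp; ring
        linarith
      linarith
    calc ‖F (x + y * I)‖ * Real.exp (((x - 1/2) ^ 2 - (y - u) ^ 2) / (2 * V))
        ≤ (C * Real.exp |y|) * Real.exp (Bd - (y - u) ^ 2 / (2 * V)) := by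
          have := hC x hx y
          gcongr
      _ = C * Real.exp (|y| + (Bd - (y - u) ^ 2 / (2 * V))) := by rw [mul_assoc, ← Real.exp_add]
      _ ≤ C * Real.exp ((Bd + 2 * |u| + 2 * V) + -|y|) := by
          apply mul_le_mul_of_nonneg_left _ hC0
          apply Real.exp_le_exp.mpr
          linarith
      _ = _ := by rw [Real.exp_add, mul_assoc]
  have h := gabriel_p hp (G := fun s => F s * KK u V s) (hF.mul (differentiable_KK u V)) haa hab hbb hgrow hx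
  rw [hV] at h
  rw [Ep_eq hp0 F hv, Ep_eq hp0 F hv, Ep_eq hp0 F hv] at h
  obtain ⟨τ, hτ⟩ : ∃ τ : ℝ, τ = (x - a) / (b - a) := ⟨_, rfl⟩
  rw [← hτ] at h ⊢
  have hba : 0 < b - a := by linarith
  have hτ0 : 0 ≤ τ := by rw [hτ]; exact div_nonneg (by linarith [hx.1]) hba.le
  have hτ1 : τ ≤ 1 := by rw [hτ, div_le_one hba]; linarith [hx.2]
  have hEa := Ep_nonneg p F u v a
  have hEb := Ep_nonneg p F u v b
  have hEx := Ep_nonneg p F u v x
  obtain ⟨c, hc⟩ : ∃ c : ℝ, c = √(2 * Real.pi * v) := ⟨_, rfl⟩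
  rw [← hc] at h
  have hc0 : 0 < c := by rw [hc]; positivity
  have e1 : (Real.exp ((a - 1/2) ^ 2 / (2 * v)) * (c * Ep p F u v a)) ^ (1 - τ) ≤ Real.exp (M / (2 * v)) ^ (1 - τ) * (c ^ (1 - τ) * Ep p F u v a ^ (1 - τ)) := by
    rw [Real.mul_rpow (Real.exp_pos _).le (by positivity), Real.mul_rpow hc0.le hEa]
    apply mul_le_mul_of_nonneg_right _ (by positivity)
    apply Real.rpow_le_rpow (Real.exp_pos _).le _ (by linarith)
    apply Real.exp_le_exp.mpr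
    gcongr
  have e2 : (Real.exp ((b - 1/2) ^ 2 / (2 * v)) * (c * Ep p F u v b)) ^ τ ≤ Real.exp (M / (2 * v)) ^ τ * (c ^ τ * Ep p F u v b ^ τ) := by
    rw [Real.mul_rpow (Real.exp_pos _).le (by positivity), Real.mul_rpow hc0.le hEb]
    apply mul_le_mul_of_nonneg_right _ (by positivity)
    apply Real.rpow_le_rpow (Real.exp_pos _).le _ hτ0
    apply Real.exp_le_exp.mpr
    gcongr
  have e3 : c * Ep p F u v x ≤ Real.exp ((x - 1/2) ^ 2 / (2 * v)) * (c * Ep p F u v x) := by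
    apply le_mul_of_one_le_left (by positivity)
    apply Real.one_le_exp; positivity
  have e4 : c * Ep p F u v x ≤ c * (Real.exp (M / (2 * v)) * (Ep p F u v a ^ (1 - τ) * Ep p F u v b ^ τ)) := by
    calc c * Ep p F u v x ≤ _ := e3
      _ ≤ _ := h
      _ ≤ (Real.exp (M / (2 * v)) ^ (1 - τ) * (c ^ (1 - τ) * Ep p F u v a ^ (1 - τ))) * (Real.exp (M / (2 * v)) ^ τ * (c ^ τ * Ep p F u v b ^ τ)) := by
          apply mul_le_mul e1 e2 (by positivity) (by positivity)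
      _ = (Real.exp (M / (2 * v)) ^ (1 - τ) * Real.exp (M / (2 * v)) ^ τ) * (c ^ (1 - τ) * c ^ τ) * (Ep p F u v a ^ (1 - τ) * Ep p F u v b ^ τ) := by ring
      _ = _ := by
          rw [← Real.rpow_add (Real.exp_pos _), ← Real.rpow_add hc0, sub_add_cancel, Real.rpow_one, Real.rpow_one]; ring
  exact le_of_mul_le_mul_left e4 hc0

/-- The same for functions that are differentiable on a neighbourhood of the strip only through
multiplication by a monic linear factor: `F = (s - 1) f` handled by the caller. -/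
theorem convex_Ep_norm {p : ℝ} (hp : 1 ≤ p) {F : ℂ → ℂ} (hF : Differentiable ℂ F) {a' a b b' C : ℝ} (haa : a' < a)
    (hab : a < b) (hbb : b < b')
    (hC0 : 0 ≤ C) (hC : ∀ x ∈ Icc a' b', ∀ y : ℝ, ‖F (x + y * I)‖ ≤ C * Real.exp |y|) {u : ℝ} {v : ℝ≥0}
    (hv : 0 < v) {x M A B : ℝ} (hx : x ∈ Icc a b) (hMa : (a - 1/2) ^ 2 ≤ M) (hMb : (b - 1/2) ^ 2 ≤ M)
    (hA : Ep p F u v a ≤ A) (hB : Ep p F u v b ≤ B) :
    Ep p F u v x ≤ Real.exp (M / (2 * v)) *
      (A ^ (1 - (x - a) / (b - a)) * B ^ ((x - a) / (b - a))) := by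
  have hba : 0 < b - a := by linarith
  have hτ0 : 0 ≤ (x - a) / (b - a) := div_nonneg (by linarith [hx.1]) hba.le
  have hτ1 : (x - a) / (b - a) ≤ 1 := by rw [div_le_one hba]; linarith [hx.2]
  refine (convex_Ep hp hF haa hab hbb hC0 hC hv hx hMa hMb).trans ?_
  apply mul_le_mul_of_nonneg_left _ (Real.exp_pos _).le
  exact mul_le_mul (Real.rpow_le_rpow (Ep_nonneg p F u v a) hA (by linarith))
    (Real.rpow_le_rpow (Ep_nonneg p F u v b) hB hτ0)
    (Real.rpow_nonneg (Ep_nonneg p F u v b) _)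
    (Real.rpow_nonneg ((Ep_nonneg p F u v a).trans hA) _)

end Pool.Agent.LibGab3
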